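import Pool.Agent.helper17.CH.SpecV
import Pool.Agent.helper35.MT.AN3

/-! Project CH (MP_5628fe_nt), row LG: logarithmic derivatives and inverses of the rough L series. -/

set_option autoImplicit false

namespace Pool.Agent.CH

open Finset ArithmeticFunction

open Classical in
private noncomputable def LG_fD {q : ℕ} (χ : DirichletCharacter ℂ q) (y : ℝ) (j : ℕ) (n : ℕ) : ℂ :=
  if rgh y n then χ n * (Real.log n : ℂ) ^ j else 0

open Classical in
private noncomputable def LG_fG {q : ℕ} (χ : DirichletCharacter ℂ q) (y : ℝ) (j : ℕ) (n : ℕ) : ℂ :=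
  if rgh y n then (vonMangoldt n : ℂ) * χ n * (Real.log n : ℂ) ^ j else 0

open Classical in
private noncomputable def LG_fM {q : ℕ} (χ : DirichletCharacter ℂ q) (y : ℝ) (j : ℕ) (n : ℕ) : ℂ :=
  if rgh y n then ((moebius n : ℤ) : ℂ) * χ n * (Real.log n : ℂ) ^ j else 0

private theorem LG_rgh_mul {y : ℝ} {a b n : ℕ} (hn : n ≠ 0) (h : a * b = n) :
    rgh y n ↔ rgh y a ∧ rgh y b := by
  have ha : a ≠ 0 := by rintro rfl; exact hn (by rw [← h, zero_mul])
  have hb : b ≠ 0 := by rintro rfl; exact hn (by rw [← h, mul_zero])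
  constructor
  · rintro ⟨_, h2⟩
    refine ⟨⟨ha, fun p hp hd => h2 p hp ?_⟩, ⟨hb, fun p hp hd => h2 p hp ?_⟩⟩
    · rw [← h]; exact hd.mul_right b
    · rw [← h]; exact hd.mul_left a
  · rintro ⟨⟨_, h1⟩, ⟨_, h2⟩⟩
    refine ⟨hn, fun p hp hd => ?_⟩
    rw [← h] at hd
    rcases hp.dvd_mul.1 hd with h3 | h3
    · exact h1 p hp h3
    · exact h2 p hp h3

private theorem LG_norm_fD {q : ℕ} (χ : DirichletCharacter ℂ q) (y : ℝ) (j n : ℕ) :
    ‖LG_fD χ y j n‖ ≤ Real.log n ^ j := by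
  unfold LG_fD
  split_ifs
  · exact helper39.MT.h35_norm_DD_coeff χ j n
  · rw [norm_zero]; exact pow_nonneg (Real.log_natCast_nonneg n) _

private theorem LG_norm_fG {q : ℕ} (χ : DirichletCharacter ℂ q) (y : ℝ) (j n : ℕ) :
    ‖LG_fG χ y j n‖ ≤ Real.log n ^ (j + 1) := by
  unfold LG_fG
  split_ifs
  · exact helper39.MT.h35_norm_GG_coeff χ j n
  · rw [norm_zero]; exact pow_nonneg (Real.log_natCast_nonneg n) _

private theorem LG_norm_fM {q : ℕ} (χ : DirichletCharacter ℂ q) (y : ℝ) (j n : ℕ) :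
    ‖LG_fM χ y j n‖ ≤ Real.log n ^ j := by
  unfold LG_fM
  split_ifs
  · rw [norm_mul, norm_mul, norm_pow, Complex.norm_real,
      Real.norm_of_nonneg (Real.log_natCast_nonneg n)]
    refine mul_le_of_le_one_left (pow_nonneg (Real.log_natCast_nonneg n) _) ?_
    have h1 : ‖((moebius n : ℤ) : ℂ)‖ ≤ 1 := by
      rw [Complex.norm_intCast]
      exact_mod_cast abs_moebius_le_one
    calc ‖((moebius n : ℤ) : ℂ)‖ * ‖χ n‖ ≤ 1 * 1 :=
          mul_le_mul h1 (χ.norm_le_one _) (norm_nonneg _) zero_le_one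
      _ = 1 := one_mul 1
  · rw [norm_zero]; exact pow_nonneg (Real.log_natCast_nonneg n) _

private theorem LG_sumD {q : ℕ} (χ : DirichletCharacter ℂ q) (y : ℝ) (j : ℕ) {s : ℂ}
    (hs : 1 < s.re) : LSeriesSummable (LG_fD χ y j) s :=
  helper39.MT.h35_summable_of_log (fun n => LG_norm_fD χ y j n) hs

private theorem LG_sumG {q : ℕ} (χ : DirichletCharacter ℂ q) (y : ℝ) (j : ℕ) {s : ℂ}
    (hs : 1 < s.re) : LSeriesSummable (LG_fG χ y j) s :=
  helper39.MT.h35_summable_of_log (fun n => LG_norm_fG χ y j n) hs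

private theorem LG_sumM {q : ℕ} (χ : DirichletCharacter ℂ q) (y : ℝ) (j : ℕ) {s : ℂ}
    (hs : 1 < s.re) : LSeriesSummable (LG_fM χ y j) s :=
  helper39.MT.h35_summable_of_log (fun n => LG_norm_fM χ y j n) hs

/-- pointwise Leibniz identity on the rough numbers -/
private theorem LG_pointG {q : ℕ} (χ : DirichletCharacter ℂ q) (y : ℝ) (j n : ℕ) (hn : n ≠ 0) :
    LG_fD χ y (j + 1) n = ∑ i ∈ range (j + 1), (Nat.choose j i : ℂ) *
      ∑ p ∈ n.divisorsAntidiagonal, LG_fG χ y i p.1 * LG_fD χ y (j - i) p.2 := by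
  by_cases h : rgh y n
  · have h1 : LG_fD χ y (j + 1) n = χ n * (Real.log n : ℂ) ^ (j + 1) := by
      unfold LG_fD; rw [if_pos h]
    rw [h1, helper39.MT.h35_pointwise χ j n hn]
    refine Finset.sum_congr rfl fun i _ => ?_
    congr 1
    refine Finset.sum_congr rfl fun p hp => ?_
    rw [Nat.mem_divisorsAntidiagonal] at hp
    obtain ⟨ha, hb⟩ := (LG_rgh_mul hn hp.1).1 h
    unfold LG_fG LG_fD
    rw [if_pos ha, if_pos hb]
  · have h1 : LG_fD χ y (j + 1) n = 0 := by
      unfold LG_fD; rw [if_neg h]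
    rw [h1]
    symm
    refine Finset.sum_eq_zero fun i _ => ?_
    rw [Finset.sum_eq_zero, mul_zero]
    intro p hp
    rw [Nat.mem_divisorsAntidiagonal] at hp
    have h2 : ¬ (rgh y p.1 ∧ rgh y p.2) := fun h3 => h ((LG_rgh_mul hn hp.1).2 h3)
    unfold LG_fG LG_fD
    by_cases ha : rgh y p.1
    · rw [if_neg (fun hb => h2 ⟨ha, hb⟩), mul_zero]
    · rw [if_neg ha, zero_mul]

/-- pointwise inversion identity on the rough numbers -/
private theorem LG_pointM {q : ℕ} (χ : DirichletCharacter ℂ q) (y : ℝ) (j n : ℕ) (hn : n ≠ 0) :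
    ∑ i ∈ range (j + 1), (Nat.choose j i : ℂ) *
      ∑ p ∈ n.divisorsAntidiagonal, LG_fM χ y i p.1 * LG_fD χ y (j - i) p.2 =
      if n = 1 ∧ j = 0 then 1 else 0 := by
  by_cases h : rgh y n
  · have h1 : ∀ p ∈ n.divisorsAntidiagonal,
        ∑ i ∈ range (j + 1), (Nat.choose j i : ℂ) * (LG_fM χ y i p.1 * LG_fD χ y (j - i) p.2)
        = ((moebius p.1 : ℤ) : ℂ) * (χ n * (Real.log n : ℂ) ^ j) := by
      intro p hp
      rw [Nat.mem_divisorsAntidiagonal] at hp
      have hp1 : p.1 ≠ 0 := fun h => hn (by rw [← hp.1, h, zero_mul])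
      have hp2 : p.2 ≠ 0 := fun h => hn (by rw [← hp.1, h, mul_zero])
      obtain ⟨ha, hb⟩ := (LG_rgh_mul hn hp.1).1 h
      have hlog : (Real.log n : ℂ) = Real.log p.1 + Real.log p.2 := by
        rw [← hp.1]
        push_cast
        rw [Real.log_mul (by exact_mod_cast hp1) (by exact_mod_cast hp2)]
        push_cast
        ring
      have hχ : χ n = χ p.1 * χ p.2 := by
        rw [← hp.1]; push_cast; rw [map_mul]
      rw [hlog, hχ, add_pow, Finset.mul_sum, Finset.mul_sum]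
      refine Finset.sum_congr rfl fun i _ => ?_
      unfold LG_fM LG_fD
      rw [if_pos ha, if_pos hb]
      ring
    have h2 : ∑ i ∈ range (j + 1), (Nat.choose j i : ℂ) *
        ∑ p ∈ n.divisorsAntidiagonal, LG_fM χ y i p.1 * LG_fD χ y (j - i) p.2
        = ∑ p ∈ n.divisorsAntidiagonal, ((moebius p.1 : ℤ) : ℂ) * (χ n * (Real.log n : ℂ) ^ j) := by
      simp only [Finset.mul_sum]
      rw [Finset.sum_comm]
      exact Finset.sum_congr rfl fun p hp => h1 p hp
    have h4 : ∑ p ∈ n.divisorsAntidiagonal, ((moebius p.1 : ℤ) : ℂ) =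
        ∑ d ∈ n.divisors, ((moebius d : ℤ) : ℂ) :=
      Nat.sum_divisorsAntidiagonal (fun d _ => ((moebius d : ℤ) : ℂ))
    have h5 : ∑ d ∈ n.divisors, ((moebius d : ℤ) : ℂ) = if n = 1 then 1 else 0 := by
      have h6 : ∑ d ∈ n.divisors, moebius d = if n = 1 then 1 else 0 := by
        have h7 := congrArg (fun f : ArithmeticFunction ℤ => f n) moebius_mul_coe_zeta
        simp only [coe_mul_zeta_apply, one_apply] at h7
        exact h7
      rw [← Int.cast_sum, h6]
      split_ifs <;> simp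
    rw [h2, ← Finset.sum_mul, h4, h5]
    by_cases hn1 : n = 1
    · subst hn1
      by_cases hj : j = 0
      · subst hj; simp
      · simp [hj]
    · simp [hn1]
  · have hn1 : n ≠ 1 := by
      rintro rfl
      exact h ⟨one_ne_zero, fun p hp hd => absurd (Nat.dvd_one.1 hd) hp.one_lt.ne'⟩
    rw [if_neg (fun h3 => hn1 h3.1)]
    refine Finset.sum_eq_zero fun i _ => ?_
    rw [Finset.sum_eq_zero, mul_zero]
    intro p hp
    rw [Nat.mem_divisorsAntidiagonal] at hp
    have h2 : ¬ (rgh y p.1 ∧ rgh y p.2) := fun h3 => h ((LG_rgh_mul hn hp.1).2 h3)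
    unfold LG_fM LG_fD
    by_cases ha : rgh y p.1
    · rw [if_neg (fun hb => h2 ⟨ha, hb⟩), mul_zero]
    · rw [if_neg ha, zero_mul]

private theorem LG_recG {q : ℕ} (χ : DirichletCharacter ℂ q) (y : ℝ) (j : ℕ) (s : ℂ)
    (hs : 1 < s.re) :
    RD χ y (j + 1) s = ∑ i ∈ range (j + 1), (Nat.choose j i : ℂ) * RG χ y i s * RD χ y (j - i) s := by
  have h1 : ∀ i, RG χ y i s * RD χ y (j - i) s
      = LSeries (LSeries.convolution (LG_fG χ y i) (LG_fD χ y (j - i))) s := fun i =>
    (LSeries_convolution' (LG_sumG χ y i hs) (LG_sumD χ y (j - i) hs)).symm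
  have h2 : ∀ i, LSeriesSummable (LSeries.convolution (LG_fG χ y i) (LG_fD χ y (j - i))) s :=
    fun i => (LG_sumG χ y i hs).convolution (LG_sumD χ y (j - i) hs)
  have h3 : ∀ i ∈ range (j + 1), (Nat.choose j i : ℂ) * RG χ y i s * RD χ y (j - i) s
      = LSeries ((Nat.choose j i : ℂ) • (LSeries.convolution (LG_fG χ y i)
          (LG_fD χ y (j - i)))) s := by
    intro i _
    rw [LSeries_smul, ← h1, mul_assoc]
  rw [Finset.sum_congr rfl h3, ← LSeries_sum (fun i _ => (h2 i).smul _)]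
  change LSeries (LG_fD χ y (j + 1)) s = _
  refine LSeries_congr (fun {n} hn => ?_) s
  rw [LG_pointG χ y j n hn]
  simp only [Finset.sum_apply, Pi.smul_apply, LSeries.convolution_def, smul_eq_mul]

private theorem LG_recM {q : ℕ} (χ : DirichletCharacter ℂ q) (y : ℝ) (j : ℕ) (s : ℂ)
    (hs : 1 < s.re) :
    ∑ i ∈ range (j + 1), (Nat.choose j i : ℂ) * RM χ y i s * RD χ y (j - i) s =
      if j = 0 then 1 else 0 := by
  have h1 : ∀ i, RM χ y i s * RD χ y (j - i) s
      = LSeries (LSeries.convolution (LG_fM χ y i) (LG_fD χ y (j - i))) s := fun i =>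
    (LSeries_convolution' (LG_sumM χ y i hs) (LG_sumD χ y (j - i) hs)).symm
  have h2 : ∀ i, LSeriesSummable (LSeries.convolution (LG_fM χ y i) (LG_fD χ y (j - i))) s :=
    fun i => (LG_sumM χ y i hs).convolution (LG_sumD χ y (j - i) hs)
  have h3 : ∀ i ∈ range (j + 1), (Nat.choose j i : ℂ) * RM χ y i s * RD χ y (j - i) s
      = LSeries ((Nat.choose j i : ℂ) • (LSeries.convolution (LG_fM χ y i)
          (LG_fD χ y (j - i)))) s := by
    intro i _
    rw [LSeries_smul, ← h1, mul_assoc]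
  rw [Finset.sum_congr rfl h3, ← LSeries_sum (fun i _ => (h2 i).smul _)]
  have h4 : LSeries (∑ i ∈ range (j + 1), (Nat.choose j i : ℂ) •
      (LSeries.convolution (LG_fM χ y i) (LG_fD χ y (j - i)))) s =
      LSeries (if j = 0 then LSeries.delta else 0) s := by
    refine LSeries_congr (fun {n} hn => ?_) s
    have h5 := LG_pointM χ y j n hn
    simp only [Finset.sum_apply, Pi.smul_apply, LSeries.convolution_def, smul_eq_mul]
    rw [h5]
    by_cases hj : j = 0
    · simp [hj, LSeries.delta]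
    · simp [hj]
  rw [h4]
  by_cases hj : j = 0
  · rw [if_pos hj, if_pos hj, LSeries_delta, Pi.one_apply]
  · rw [if_neg hj, if_neg hj, LSeries_zero, Pi.zero_apply]

/-- the bound of the recursion step -/
private theorem LG_step {l D : ℝ} {J j : ℕ} (hj : j ≤ J) (hD : 0 ≤ D)
    (hl2 : 2 ^ (J + 2) ≤ l) (hlJ : (J : ℝ) + 2 ≤ l) (R S : ℕ → ℂ) (e : ℕ)
    (hR : ∀ i ≤ J + 1, ‖R i‖ ≤ D ^ i * l ^ (i + 2)) (hR0 : 1 ≤ l ^ 8 * ‖R 0‖)
    (hS : ∀ i < j, ‖S i‖ ≤ D ^ (i + e) * l ^ ((J + 13) * (i + 1))) (T : ℂ)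
    (hT : ‖T‖ ≤ D ^ (j + e) * l ^ (j + 3))
    (hrec : S j * R 0 = T - ∑ i ∈ range j, (Nat.choose j i : ℂ) * S i * R (j - i)) :
    ‖S j‖ ≤ D ^ (j + e) * l ^ ((J + 13) * (j + 1)) := by
  have hl1 : 1 ≤ l := by
    have : (1 : ℝ) ≤ 2 ^ (J + 2) := one_le_pow₀ (by norm_num)
    linarith
  have hl0 : 0 ≤ l := by linarith
  have hl22 : 2 ≤ l := by
    have : (0 : ℝ) ≤ J := Nat.cast_nonneg _
    linarith
  have hb : ‖T - ∑ i ∈ range j, (Nat.choose j i : ℂ) * S i * R (j - i)‖ ≤
      D ^ (j + e) * l ^ ((J + 13) * j + J + 5) := by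
    have h1 : ‖∑ i ∈ range j, (Nat.choose j i : ℂ) * S i * R (j - i)‖ ≤
        D ^ (j + e) * l ^ ((J + 13) * j + J + 4) := by
      have h2 : ∀ i ∈ range j, ‖(Nat.choose j i : ℂ) * S i * R (j - i)‖ ≤
          D ^ (j + e) * l ^ ((J + 13) * j + J + 3) := by
        intro i hi
        rw [Finset.mem_range] at hi
        rw [norm_mul, norm_mul, Complex.norm_natCast]
        have hc : ((Nat.choose j i : ℕ) : ℝ) ≤ l := by
          have h3 : Nat.choose j i ≤ 2 ^ (J + 2) :=
            (Nat.choose_le_two_pow j i).trans (Nat.pow_le_pow_right (by norm_num) (by omega))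
          have h4 : ((Nat.choose j i : ℕ) : ℝ) ≤ ((2 ^ (J + 2) : ℕ) : ℝ) := by exact_mod_cast h3
          push_cast at h4
          linarith
        have hDi : 0 ≤ D ^ (i + e) * l ^ ((J + 13) * (i + 1)) := by positivity
        calc ((Nat.choose j i : ℕ) : ℝ) * ‖S i‖ * ‖R (j - i)‖
            ≤ l * (D ^ (i + e) * l ^ ((J + 13) * (i + 1))) * (D ^ (j - i) * l ^ (j - i + 2)) := by
              apply mul_le_mul _ (hR _ (by omega)) (norm_nonneg _) (by positivity)
              exact mul_le_mul hc (hS i hi) (norm_nonneg _) hl0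
          _ = D ^ (i + e + (j - i)) * l ^ (1 + (J + 13) * (i + 1) + (j - i + 2)) := by
              rw [pow_add D (i + e), pow_add l (1 + (J + 13) * (i + 1)), pow_add l 1, pow_one]
              ring
          _ ≤ D ^ (j + e) * l ^ ((J + 13) * j + J + 3) := by
              have h5 : i + e + (j - i) = j + e := by omega
              rw [h5]
              apply mul_le_mul_of_nonneg_left _ (by positivity)
              apply pow_le_pow_right₀ hl1
              have h6 : (J + 13) * (i + 1) ≤ (J + 13) * j := Nat.mul_le_mul_left _ (by omega)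
              omega
      refine (norm_sum_le _ _).trans ((Finset.sum_le_sum h2).trans ?_)
      rw [Finset.sum_const, Finset.card_range, nsmul_eq_mul]
      have hjl : (j : ℝ) ≤ l := by
        have : (j : ℝ) ≤ J := by exact_mod_cast hj
        linarith
      calc (j : ℝ) * (D ^ (j + e) * l ^ ((J + 13) * j + J + 3))
          ≤ l * (D ^ (j + e) * l ^ ((J + 13) * j + J + 3)) :=
            mul_le_mul_of_nonneg_right hjl (by positivity)
        _ = D ^ (j + e) * l ^ ((J + 13) * j + J + 4) := by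
            rw [pow_succ l ((J + 13) * j + J + 3)]; ring
    have hT' : ‖T‖ ≤ D ^ (j + e) * l ^ ((J + 13) * j + J + 4) := by
      refine hT.trans (mul_le_mul_of_nonneg_left (pow_le_pow_right₀ hl1 ?_) (by positivity))
      have : j ≤ (J + 13) * j := Nat.le_mul_of_pos_left j (by omega)
      omega
    calc ‖T - ∑ i ∈ range j, (Nat.choose j i : ℂ) * S i * R (j - i)‖
        ≤ ‖T‖ + ‖∑ i ∈ range j, (Nat.choose j i : ℂ) * S i * R (j - i)‖ := norm_sub_le _ _
      _ ≤ 2 * (D ^ (j + e) * l ^ ((J + 13) * j + J + 4)) := by linarith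
      _ ≤ l * (D ^ (j + e) * l ^ ((J + 13) * j + J + 4)) :=
          mul_le_mul_of_nonneg_right hl22 (by positivity)
      _ = D ^ (j + e) * l ^ ((J + 13) * j + J + 5) := by
          rw [pow_succ l ((J + 13) * j + J + 4)]; ring
  rw [← hrec, norm_mul] at hb
  have h7 : ‖S j‖ ≤ l ^ 8 * (‖S j‖ * ‖R 0‖) := by
    have := mul_le_mul_of_nonneg_left hR0 (norm_nonneg (S j))
    calc ‖S j‖ = ‖S j‖ * 1 := (mul_one _).symm
      _ ≤ ‖S j‖ * (l ^ 8 * ‖R 0‖) := this
      _ = l ^ 8 * (‖S j‖ * ‖R 0‖) := by ring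
  calc ‖S j‖ ≤ l ^ 8 * (‖S j‖ * ‖R 0‖) := h7
    _ ≤ l ^ 8 * (D ^ (j + e) * l ^ ((J + 13) * j + J + 5)) :=
        mul_le_mul_of_nonneg_left hb (by positivity)
    _ = D ^ (j + e) * l ^ (8 + ((J + 13) * j + J + 5)) := by
        rw [pow_add l 8]; ring
    _ = D ^ (j + e) * l ^ ((J + 13) * (j + 1)) := by
        congr 2; ring

theorem LG (h1 : LD_stmt) (h2 : LB_stmt) : LG_stmt := by
  intro J B K
  obtain ⟨B1, C, x1, hC, hLD⟩ := h1 (J + 1) B K
  obtain ⟨B2, c, x2, hc, hLB⟩ := h2 B K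
  obtain ⟨M, hM⟩ : ∃ M : ℝ, M = max (max C (1 / c)) (max (2 ^ (J + 2)) ((J : ℝ) + 2)) := ⟨_, rfl⟩
  have hMC : C ≤ M := by rw [hM]; exact (le_max_left _ _).trans (le_max_left _ _)
  have hMc : 1 / c ≤ M := by rw [hM]; exact (le_max_right _ _).trans (le_max_left _ _)
  have hM2 : 2 ^ (J + 2) ≤ M := by rw [hM]; exact (le_max_left _ _).trans (le_max_right _ _)
  have hMJ : (J : ℝ) + 2 ≤ M := by rw [hM]; exact (le_max_right _ _).trans (le_max_right _ _)
  refine ⟨max B1 B2, (J + 13) * (J + 1), max (max x1 x2) (Real.exp (Real.exp M)), ?_⟩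
  intro x hx q hq hqB χ s hs
  have hx1 : x1 ≤ x := (le_max_left _ _).trans ((le_max_left _ _).trans hx)
  have hx2 : x2 ≤ x := (le_max_right _ _).trans ((le_max_left _ _).trans hx)
  have hx3 : Real.exp (Real.exp M) ≤ x := (le_max_right _ _).trans hx
  have hlogx : Real.exp M ≤ Real.log x := by
    have := Real.log_le_log (Real.exp_pos _) hx3
    rwa [Real.log_exp] at this
  have hll : M ≤ ll2 x := by
    have := Real.log_le_log (Real.exp_pos _) hlogx
    rwa [Real.log_exp] at this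
  have hM1 : 1 ≤ M := by
    have : (1 : ℝ) ≤ 2 ^ (J + 2) := one_le_pow₀ (by norm_num)
    linarith
  have hlog1 : 1 ≤ Real.log x := (Real.one_le_exp (by linarith)).trans hlogx
  obtain ⟨hs1, hs2, hs3, hs4⟩ := hs
  have hr1 : Rng B1 K x s :=
    ⟨hs1, hs2, (pow_le_pow_right₀ hlog1 (le_max_left _ _)).trans hs3, hs4⟩
  have hr2 : Rng B2 K x s :=
    ⟨hs1, hs2, (pow_le_pow_right₀ hlog1 (le_max_right _ _)).trans hs3, hs4⟩
  have hre : 1 < s.re := by
    have : 0 < 1 / Real.log x := by positivity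
    linarith
  obtain ⟨D, hDdef⟩ : ∃ D : ℝ, D = dl x := ⟨_, rfl⟩
  obtain ⟨l, hldef⟩ : ∃ l : ℝ, l = ll2 x := ⟨_, rfl⟩
  obtain ⟨y, hydef⟩ : ∃ y : ℝ, y = Real.exp (dl x) := ⟨_, rfl⟩
  have hD0 : 0 ≤ D := by rw [hDdef]; unfold dl; exact Real.rpow_nonneg (by linarith) _
  have hlM : M ≤ l := by rw [hldef]; exact hll
  have hl1 : 1 ≤ l := hM1.trans hlM
  have hl0 : 0 < l := by linarith
  have hR : ∀ i ≤ J + 1, ‖RD χ y i s‖ ≤ D ^ i * l ^ (i + 2) := by
    intro i hi
    have h3 := hLD x hx1 q hq hqB χ s hr1 i hi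
    rw [← hydef, ← hDdef, ← hldef] at h3
    refine h3.trans ?_
    calc C * D ^ i * l ^ (i + 1) ≤ l * D ^ i * l ^ (i + 1) := by
          apply mul_le_mul_of_nonneg_right _ (by positivity)
          exact mul_le_mul_of_nonneg_right (hMC.trans hlM) (by positivity)
      _ = D ^ i * l ^ (i + 2) := by rw [pow_succ l (i + 1)]; ring
  have hR0 : 1 ≤ l ^ 8 * ‖RD χ y 0 s‖ := by
    have h3 := hLB x hx2 q hq hqB χ s hr2
    rw [← hydef, ← hldef] at h3
    have h4 : 1 ≤ c * l := by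
      have h5 := hMc.trans hlM
      rw [div_le_iff₀ hc] at h5
      linarith
    calc (1 : ℝ) ≤ c * l := h4
      _ = l ^ 8 * (c / l ^ 7) := by field_simp
      _ ≤ l ^ 8 * ‖RD χ y 0 s‖ := mul_le_mul_of_nonneg_left h3 (by positivity)
  have hG : ∀ j, j ≤ J → ‖RG χ y j s‖ ≤ D ^ (j + 1) * l ^ ((J + 13) * (j + 1)) := by
    intro j
    induction j using Nat.strong_induction_on with
    | _ j ih =>
      intro hj
      refine LG_step hj hD0 (hM2.trans hlM) (hMJ.trans hlM) (fun i => RD χ y i s)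
        (fun i => RG χ y i s) 1 hR hR0 (fun i hi => ih i hi (by omega)) (RD χ y (j + 1) s)
        (hR (j + 1) (by omega)) ?_
      have hrec := LG_recG χ y j s hre
      rw [Finset.sum_range_succ, Nat.choose_self, Nat.sub_self, Nat.cast_one, one_mul] at hrec
      rw [hrec]
      ring
  have hMM : ∀ j, j ≤ J → ‖RM χ y j s‖ ≤ D ^ (j + 0) * l ^ ((J + 13) * (j + 1)) := by
    intro j
    induction j using Nat.strong_induction_on with
    | _ j ih =>
      intro hj
      refine LG_step hj hD0 (hM2.trans hlM) (hMJ.trans hlM) (fun i => RD χ y i s)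
        (fun i => RM χ y i s) 0 hR hR0 (fun i hi => ih i hi (by omega)) (if j = 0 then 1 else 0)
        ?_ ?_
      · by_cases hj0 : j = 0
        · subst hj0
          simp only [if_true, norm_one, add_zero, pow_zero, one_mul]
          exact one_le_pow₀ hl1
        · rw [if_neg hj0, norm_zero]; positivity
      · have hrec := LG_recM χ y j s hre
        rw [Finset.sum_range_succ, Nat.choose_self, Nat.sub_self, Nat.cast_one, one_mul] at hrec
        rw [← hrec]
        ring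
  intro j hj
  rw [← hydef, ← hDdef, ← hldef]
  have hexp : l ^ ((J + 13) * (j + 1)) ≤ l ^ ((J + 13) * (J + 1)) :=
    pow_le_pow_right₀ hl1 (Nat.mul_le_mul_left _ (by omega))
  constructor
  · exact (hG j hj).trans (mul_le_mul_of_nonneg_left hexp (by positivity))
  · have := hMM j hj
    rw [add_zero] at this
    exact this.trans (mul_le_mul_of_nonneg_left hexp (by positivity))

end Pool.Agent.CH
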